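import Pool.Agent.THS.Main

/-!
# MP_f9da95_nt: `S(k) ~ (1/2) k log k` over the primes

For `S'(h,k) = ∑_{j=1}^{k-1} (-1)^(j+1+⌊hj/k⌋)` and `S(k) = ∑_{h=1}^{k-1} S'(h,k)`:
`S(k)/(k log k) → 1/2` as `k → ∞` through the primes; hence `S(k) > 2k` for all but finitely
many primes `k`.

Proof: `Pool/Agent/THS`. Exact formula `S(k) = (8k/π²) ∑_{m,r odd < k} c(m) c(r) (-χ(r/(2m)))` with
`c(n) ~ 1/n` and `χ` the sign on `ℤ/k`; for `m ≤ (log k)^3` the inner sum is elementary; for larger `m` and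
`r ≥ exp((log k)^{1/50})` a divisor lemma shows that almost all `m` are equidistributed; for smaller `r`
Karatsuba's bilinear method for short sums of reciprocals mod `k` is used.
-/

set_option autoImplicit false

open Finset Filter Topology

namespace Pool.Agent.Results.MP_f9da95_nt.Asymptotic

/-- `S'(h,k) = ∑_{j=1}^{k-1} (-1)^(j+1+⌊hj/k⌋)` -/
def S' (h k : ℕ) : ℤ := ∑ j ∈ Icc 1 (k - 1), (-1 : ℤ) ^ (j + 1 + h * j / k)

/-- `S(k) = ∑_{h=1}^{k-1} S'(h,k)` -/
def S (k : ℕ) : ℤ := ∑ h ∈ Icc 1 (k - 1), S' h k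

theorem S_eq {k : ℕ} (hk : 1 ≤ k) : S k = Pool.Agent.THS.S k := by
  have h : Icc 1 (k - 1) = Ico 1 k := by
    ext x; rw [mem_Icc, mem_Ico]; omega
  unfold S S' Pool.Agent.THS.S Pool.Agent.THS.S1
  rw [h]

theorem result :
    Tendsto (fun k : ℕ => (S k : ℝ) / (k * Real.log k)) (atTop ⊓ 𝓟 {k : ℕ | k.Prime}) (𝓝 (1 / 2)) ∧
    {k : ℕ | k.Prime ∧ S k ≤ 2 * k}.Finite := by
  have hmain : ∀ ε : ℝ, 0 < ε → ∀ᶠ k : ℕ in atTop, k.Prime →
      |(S k : ℝ) - 1 / 2 * k * Real.log k| ≤ ε * (k * Real.log k) := by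
    intro ε hε
    filter_upwards [Pool.Agent.THS.main ε hε, eventually_ge_atTop 1] with k h1 h2 h3
    rw [S_eq h2]
    exact h1 h3
  have hlog : Tendsto (fun k : ℕ => Real.log (k : ℝ)) atTop atTop :=
    Real.tendsto_log_atTop.comp tendsto_natCast_atTop_atTop
  have hC : ∀ C : ℝ, {k : ℕ | k.Prime ∧ (S k : ℝ) ≤ C * k}.Finite := by
    intro C
    have h1 := hmain (1 / 4) (by norm_num)
    have h2 := hlog.eventually_gt_atTop (4 * |C| + 4)
    obtain ⟨K, hK⟩ := eventually_atTop.mp (h1.and (h2.and (eventually_ge_atTop 1)))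
    apply Set.Finite.subset (Set.finite_Iio K)
    intro k hk
    rw [Set.mem_Iio]
    by_contra hcon
    obtain ⟨h3, h4, h5⟩ := hK k (not_lt.mp hcon)
    have h6 := (abs_le.mp (h3 hk.1)).1
    have h7 : (1 : ℝ) ≤ k := by exact_mod_cast h5
    have h8 := hk.2
    have h9 := le_abs_self C
    have h10 := abs_nonneg C
    nlinarith
  refine ⟨?_, ?_⟩
  · rw [Metric.tendsto_nhds]
    intro ε hε
    rw [eventually_inf_principal]
    filter_upwards [hmain (ε / 2) (by linarith), hlog.eventually_gt_atTop 0, eventually_ge_atTop 1]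
      with k h1 h2 h3 h4
    have h5 := h1 h4
    have h7 : (1 : ℝ) ≤ k := by exact_mod_cast h3
    have h8 : 0 < (k : ℝ) * Real.log k := by positivity
    rw [Real.dist_eq]
    have h9 : (S k : ℝ) / (k * Real.log k) - 1 / 2 =
        ((S k : ℝ) - 1 / 2 * k * Real.log k) / (k * Real.log k) := by
      have h10 : (k : ℝ) ≠ 0 := by positivity
      have h11 : Real.log k ≠ 0 := h2.ne'
      field_simp
    rw [h9, abs_div, abs_of_pos h8, div_lt_iff₀ h8]
    nlinarith
  · apply (hC 2).subset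
    intro k hk
    refine ⟨hk.1, ?_⟩
    have := hk.2
    exact_mod_cast this

end Pool.Agent.Results.MP_f9da95_nt.Asymptotic
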